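import Pool.Agent.H75.OM.TC

/-!
# Row (CNC): the number of circuits
-/

set_option autoImplicit false

namespace Pool.Agent.H89.OM

open Finset Pool.Agent.H75.OM

/-! ### Normalisation of the wires -/

/-- the wires beyond `N` are replaced by `N` -/
def cnc_nrm (N : ℕ) : Gate → Gate
  | .nand i j => .nand (min i N) (min j N)
  | .ask l => .ask (l.map fun i => min i N)

theorem cnc_getD (v : List Bool) (N i : ℕ) (hv : v.length ≤ N) :
    v.getD (min i N) false = v.getD i false := by
  rcases le_total i N with h | h
  · rw [min_eq_left h]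
  · rw [min_eq_right h, List.getD_eq_default _ _ hv, List.getD_eq_default _ _ (hv.trans h)]

theorem cnc_val (O : List Bool → Bool) (v : List Bool) (N : ℕ) (hv : v.length ≤ N) (g : Gate) :
    (cnc_nrm N g).val O v = g.val O v := by
  cases g with
  | nand i j =>
    unfold cnc_nrm Gate.val
    simp only
    rw [cnc_getD v N i hv, cnc_getD v N j hv]
  | ask l =>
    unfold cnc_nrm Gate.val
    simp only [List.map_map]
    congr 1
    apply List.map_congr_left
    intro i _
    exact cnc_getD v N i hv

theorem cnc_run (O : List Bool → Bool) (N : ℕ) (C : Circ) : ∀ v : List Bool,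
    v.length + C.length ≤ N + 1 → crun O (C.map (cnc_nrm N)) v = crun O C v := by
  induction C with
  | nil => intro v _; rfl
  | cons g C ih =>
    intro v hv
    rw [List.length_cons] at hv
    unfold crun at ih ⊢
    rw [List.map_cons, List.foldl_cons, List.foldl_cons, cnc_val O v N (by omega) g]
    apply ih
    rw [List.length_append, List.length_singleton]
    omega

theorem cnc_size (N : ℕ) (g : Gate) : (cnc_nrm N g).size = g.size := by
  cases g with
  | nand i j => rfl
  | ask l =>
    unfold cnc_nrm Gate.size
    simp only [List.length_map]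

theorem cnc_csize (N : ℕ) (C : Circ) : csize (C.map (cnc_nrm N)) = csize C := by
  unfold csize
  rw [List.map_map]
  congr 1
  apply List.map_congr_left
  intro g _
  exact cnc_size N g

theorem cnc_len (C : Circ) : C.length ≤ csize C := by
  induction C with
  | nil => simp [csize]
  | cons g C ih =>
    unfold csize at ih ⊢
    rw [List.map_cons, List.sum_cons, List.length_cons]
    have h1 : 1 ≤ g.size := by
      cases g with
      | nand i j => exact le_rfl
      | ask l => exact Nat.le_add_left 1 _
    omega

/-! ### The code -/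

/-- one step of the decoder -/
def cnc_st (N : ℕ) (a : ℕ) (p : List ℕ × Circ) : List ℕ × Circ :=
  if a ≤ N then (a :: p.1, p.2) else
  if a = N + 1 then ([], Gate.nand (p.1.getD 0 0) (p.1.getD 1 0) :: p.2) else
  if a = N + 2 then ([], Gate.ask p.1 :: p.2) else p

/-- the decoder -/
def cnc_dec (N : ℕ) (w : List ℕ) : Circ := (w.foldr (cnc_st N) ([], [])).2

/-- the code of a gate -/
def cnc_enc (N : ℕ) : Gate → List ℕ
  | .nand i j => [N + 1, i, j]
  | .ask l => (N + 2) :: l

/-- all wires are at most `N` -/
def cnc_ok (N : ℕ) : Gate → Prop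
  | .nand i j => i ≤ N ∧ j ≤ N
  | .ask l => ∀ i ∈ l, i ≤ N

theorem cnc_nrm_ok (N : ℕ) (g : Gate) : cnc_ok N (cnc_nrm N g) := by
  cases g with
  | nand i j => exact ⟨min_le_right _ _, min_le_right _ _⟩
  | ask l =>
    intro i hi
    rw [List.mem_map] at hi
    obtain ⟨k, _, rfl⟩ := hi
    exact min_le_right _ _

theorem cnc_wires (N : ℕ) (C : Circ) (p : List ℕ) : ∀ l : List ℕ, (∀ i ∈ l, i ≤ N) →
    l.foldr (cnc_st N) (p, C) = (l ++ p, C) := by
  intro l
  induction l with
  | nil => intro _; rfl
  | cons a l ih =>
    intro h
    rw [List.foldr_cons, ih fun i hi => h i (List.mem_cons_of_mem _ hi)]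
    unfold cnc_st
    rw [if_pos (h a List.mem_cons_self)]
    rfl

theorem cnc_gate (N : ℕ) (C : Circ) (g : Gate) (hg : cnc_ok N g) :
    (cnc_enc N g).foldr (cnc_st N) ([], C) = ([], g :: C) := by
  cases g with
  | nand i j =>
    have h1 : cnc_enc N (.nand i j) = (N + 1) :: [i, j] := rfl
    rw [h1, List.foldr_cons, cnc_wires N C [] [i, j] (by
      intro k hk
      simp only [List.mem_cons, List.not_mem_nil, or_false] at hk
      rcases hk with rfl | rfl
      · exact hg.1
      · exact hg.2)]
    unfold cnc_st
    rw [if_neg (by omega), if_pos rfl]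
    rfl
  | ask l =>
    have h1 : cnc_enc N (.ask l) = (N + 2) :: l := rfl
    rw [h1, List.foldr_cons, cnc_wires N C [] l hg]
    unfold cnc_st
    rw [if_neg (by omega), if_neg (by omega), if_pos rfl, List.append_nil]

theorem cnc_circ (N : ℕ) (C : Circ) (h : ∀ g ∈ C, cnc_ok N g) :
    (C.flatMap (cnc_enc N)).foldr (cnc_st N) ([], []) = ([], C) := by
  induction C with
  | nil => rfl
  | cons g C ih =>
    rw [List.flatMap_cons, List.foldr_append, ih fun k hk => h k (List.mem_cons_of_mem _ hk),
      cnc_gate N C g (h g List.mem_cons_self)]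

theorem cnc_pad (N k : ℕ) :
    (List.replicate k (N + 3)).foldr (cnc_st N) ([], []) = ([], []) := by
  induction k with
  | zero => rfl
  | succ k ih =>
    rw [List.replicate_succ, List.foldr_cons, ih]
    unfold cnc_st
    rw [if_neg (by omega), if_neg (by omega), if_neg (by omega)]

theorem cnc_enc_len (N : ℕ) (C : Circ) : (C.flatMap (cnc_enc N)).length ≤ 3 * csize C := by
  induction C with
  | nil => simp [csize]
  | cons g C ih =>
    unfold csize at ih ⊢
    rw [List.flatMap_cons, List.length_append, List.map_cons, List.sum_cons]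
    have h1 : (cnc_enc N g).length ≤ 3 * g.size := by
      cases g with
      | nand i j => exact le_rfl
      | ask l =>
        unfold cnc_enc Gate.size
        simp only [List.length_cons]
        omega
    omega

theorem cnc_enc_lt (N : ℕ) (C : Circ) (h : ∀ g ∈ C, cnc_ok N g) :
    ∀ a ∈ C.flatMap (cnc_enc N), a < N + 4 := by
  intro a ha
  rw [List.mem_flatMap] at ha
  obtain ⟨g, hg, ha⟩ := ha
  have hok := h g hg
  cases g with
  | nand i j =>
    unfold cnc_enc at ha
    simp only [List.mem_cons, List.not_mem_nil, or_false] at ha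
    have h1 := hok.1
    have h2 := hok.2
    omega
  | ask l =>
    unfold cnc_enc at ha
    rw [List.mem_cons] at ha
    rcases ha with ha | ha
    · omega
    · have := hok a ha
      omega

open Classical in
theorem pf_CNC : T_CNC := by
  intro s N
  refine ⟨((Finset.univ : Finset (Fin (3 * s) → Fin (N + 4))).image
    (fun w => cnc_dec N (List.ofFn fun i => (w i : ℕ)))).filter (fun C => csize C ≤ s), ?_, ?_, ?_⟩
  · refine (Finset.card_filter_le _ _).trans (Finset.card_image_le.trans (le_of_eq ?_))
    rw [Finset.card_univ, Fintype.card_fun, Fintype.card_fin, Fintype.card_fin]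
  · intro C hC
    exact (Finset.mem_filter.mp hC).2
  · intro C hC
    have hok : ∀ g ∈ C.map (cnc_nrm N), cnc_ok N g := by
      intro g hg
      rw [List.mem_map] at hg
      obtain ⟨g', _, rfl⟩ := hg
      exact cnc_nrm_ok N g'
    have hcs : csize (C.map (cnc_nrm N)) ≤ s := by rw [cnc_csize]; exact hC
    refine ⟨C.map (cnc_nrm N), ?_, ?_⟩
    · rw [Finset.mem_filter]
      refine ⟨?_, hcs⟩
      rw [Finset.mem_image]
      set e : List ℕ := (C.map (cnc_nrm N)).flatMap (cnc_enc N) with he
      have hel : e.length ≤ 3 * s := (cnc_enc_len N _).trans (Nat.mul_le_mul_left 3 hcs)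
      set w : List ℕ := e ++ List.replicate (3 * s - e.length) (N + 3) with hw
      have hwl : w.length = 3 * s := by
        rw [hw, List.length_append, List.length_replicate]
        omega
      have hwlt : ∀ a ∈ w, a < N + 4 := by
        intro a ha
        rw [hw, List.mem_append] at ha
        rcases ha with ha | ha
        · exact cnc_enc_lt N _ hok a ha
        · have := List.eq_of_mem_replicate ha
          omega
      refine ⟨fun i => ⟨w[(i : ℕ)]'(by rw [hwl]; exact i.2), hwlt _ (List.getElem_mem _)⟩,
        Finset.mem_univ _, ?_⟩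
      have h1 : (List.ofFn fun i : Fin (3 * s) => w[(i : ℕ)]'(by rw [hwl]; exact i.2)) = w := by
        apply List.ext_getElem
        · rw [List.length_ofFn, hwl]
        · intro n h1 h2
          rw [List.getElem_ofFn]
      change cnc_dec N (List.ofFn fun i : Fin (3 * s) => w[(i : ℕ)]'(by rw [hwl]; exact i.2)) = _
      rw [h1]
      unfold cnc_dec
      rw [hw, List.foldr_append, cnc_pad, he, cnc_circ N _ hok]
    · intro O x hx
      unfold cout
      rw [cnc_run O N C x (by have := cnc_len C; omega)]

end Pool.Agent.H89.OM
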